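import Pool.Agent.H40.Den2

set_option autoImplicit false

namespace Pool.Agent.Results.MP_d53a0a_lc.NoDom

open Pool.Agent.H40.Bsig

theorem result : ∃ M : Mod, RCA0 M ∧ Bnd M 2 ∧ Complete M ∧ ¬ DOM M ∧ ¬ COH M ∧ ¬ Ind M 2 :=
  ⟨C3.M, Cut.rca Par.sig ⟨_, YS_mem 0⟩, Cut.bnd Par.sig, complete, notDOM, notCOH, notInd3⟩

end Pool.Agent.Results.MP_d53a0a_lc.NoDom
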